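import Pool.Agent.W544.FF.Defs

set_option autoImplicit false

/-!
# FF-EQV: forms which transform by a character of the orthogonal group (helper237)
-/

open Matrix Finset Module

namespace Pool.Agent.W237.FF

open Pool.Agent.W544.PG Pool.Agent.W544.FF

noncomputable section

theorem genO_eq {n r k : ℕ} (c : Fin n → Fin r) (σ : Fin k → Fin k) (hσ : ∀ j, σ (σ j) = j)
    (f : Fin k → Fin r) (J : Fin k → Fin n) :
    genO ℂ c σ f J =
      open Classical in if (∀ j, c (J j) = f j) ∧ (∀ j, J j = J (σ j)) then 1 else 0 := by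
  classical
  unfold genO
  have h : (∏ j with j < σ j, if J j = J (σ j) then (1 : ℂ) else 0)
      = if (∀ j, J j = J (σ j)) then 1 else 0 := by
    split_ifs with h
    · apply Finset.prod_eq_one
      intro j _
      rw [if_pos (h j)]
    · push Not at h
      obtain ⟨j, hj⟩ := h
      have hne : σ j ≠ j := fun h => hj (by rw [h])
      rcases lt_or_gt_of_ne hne with hlt | hlt
      · apply Finset.prod_eq_zero (i := σ j)
        · rw [Finset.mem_filter, hσ]
          exact ⟨Finset.mem_univ _, hlt⟩
        · rw [if_neg]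
          rw [hσ]
          exact fun h => hj h.symm
      · apply Finset.prod_eq_zero (i := j)
        · rw [Finset.mem_filter]
          exact ⟨Finset.mem_univ _, hlt⟩
        · rw [if_neg hj]
  rw [h]
  by_cases h1 : ∀ j, c (J j) = f j
  · by_cases h2 : ∀ j, J j = J (σ j)
    · rw [if_pos h1, if_pos h2, if_pos ⟨h1, h2⟩, one_mul]
    · rw [if_pos h1, if_neg h2, if_neg (fun h => h2 h.2), mul_zero]
  · rw [if_neg h1, zero_mul, if_neg (fun h => h1 h.1)]

theorem pull_mul {n k N : ℕ} (A : Matrix (Fin n) (Fin n) ℂ) (u : (Fin k → Fin n) → ℂ)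
    (D : (Fin N → Fin n) → ℂ) (J : Fin (k + N) → Fin n) :
    pull A (fun J => u (fun j => J (Fin.castAdd N j)) * D (fun j => J (Fin.natAdd k j))) J
      = pull A u (fun j => J (Fin.castAdd N j)) * pull A D (fun j => J (Fin.natAdd k j)) := by
  unfold pull
  rw [Finset.sum_mul_sum, ← Fintype.sum_prod_type', ← (Fin.appendEquiv k N).sum_comp]
  apply Finset.sum_congr rfl
  rintro ⟨K1, K2⟩ _
  simp only [Fin.appendEquiv, Equiv.coe_fn_mk, Fin.prod_univ_add, Fin.append_left, Fin.append_right]
  ring

theorem bl_orth {n r : ℕ} (c : Fin n → Fin r) (i : Fin r) (R : Matrix (Fin n) (Fin n) ℝ)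
    (hR : Rᵀ * R = 1) (hB : BD c R) : (bl c i R)ᵀ * bl c i R = 1 := by
  ext a b
  have hent := congrFun (congrFun hR a) b
  rw [Matrix.mul_apply] at hent ⊢
  simp only [transpose_apply, bl, of_apply] at hent ⊢
  by_cases ha : c a = i
  · by_cases hb : c b = i
    · rw [← hent]
      apply Finset.sum_congr rfl
      intro x _
      by_cases hx : c x = i
      · simp [ha, hb, hx]
      · have h1 : R x a = 0 := hB x a (by rw [ha]; exact hx)
        have hxa : x ≠ a := by rintro rfl; exact hx ha
        simp [hx, h1, hxa]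
    · rw [Finset.sum_eq_single b]
      · simp [hb, Matrix.one_apply, eq_comm]
      · intro x _ hx
        simp [hb, hx]
      · simp
  · rw [Finset.sum_eq_single a]
    · simp [ha, Matrix.one_apply]
    · intro x _ hx
      simp [ha, hx]
    · simp

theorem chr_sq {n r : ℕ} (c : Fin n → Fin r) (S : Finset (Fin r)) (R : Matrix (Fin n) (Fin n) ℝ)
    (hR : Rᵀ * R = 1) (hB : BD c R) : chr c S R * chr c S R = 1 := by
  unfold chr
  rw [← Finset.prod_mul_distrib]
  apply Finset.prod_eq_one
  intro i _
  have h := congrArg Matrix.det (bl_orth c i R hR hB)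
  rwa [Matrix.det_mul, Matrix.det_transpose, Matrix.det_one] at h

theorem dt_cast {n r N : ℕ} (c : Fin n → Fin r) (S : Finset (Fin r))
    (g : {b : Fin n // c b ∈ S} → Fin N) (L : Fin N → Fin n) :
    (dt c S id g L : ℂ) = ((dt c S id g L : ℤ) : ℂ) := by
  unfold dt
  have h : (((Matrix.of fun x y : {b : Fin n // c b ∈ S} =>
      if c y.1 = c x.1 ∧ L (g x) = id y.1 then (1 : ℤ) else 0).det : ℤ) : ℂ) = _ :=
    (Int.castRingHom ℂ).map_det (Matrix.of fun x y : {b : Fin n // c b ∈ S} =>
      if c y.1 = c x.1 ∧ L (g x) = id y.1 then (1 : ℤ) else 0)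
  rw [h]
  congr 1
  ext x y
  simp only [RingHom.mapMatrix_apply, Matrix.map_apply, Matrix.of_apply, Int.coe_castRingHom]
  split_ifs <;> simp

theorem dt_one {n r N : ℕ} (c : Fin n → Fin r) (S : Finset (Fin r))
    (e : {b : Fin n // c b ∈ S} ≃ Fin N) : (dt c S id e (fun j => (e.symm j).1) : ℤ) = 1 := by
  unfold dt
  have : (Matrix.of fun x y : {b : Fin n // c b ∈ S} =>
      if c y.1 = c x.1 ∧ (fun j => (e.symm j).1) (e x) = id y.1 then (1 : ℤ) else 0) = 1 := by
    ext x y
    simp only [Matrix.of_apply, Equiv.symm_apply_apply, id, Matrix.one_apply]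
    by_cases h : x = y
    · subst h
      simp
    · have h' : ¬ x.1 = y.1 := fun h2 => h (Subtype.ext h2)
      simp [h, h']
  rw [this, Matrix.det_one]

theorem dt_zero {n r N : ℕ} (c : Fin n → Fin r) (S : Finset (Fin r))
    (e : {b : Fin n // c b ∈ S} ≃ Fin N) (L : Fin N → Fin n) (x y : Fin N) (hxy : x ≠ y)
    (hL : L x = L y) : (dt c S id e L : ℂ) = 0 := by
  unfold dt
  by_cases h1 : c (L x) = c (e.symm x).1
  · by_cases h2 : c (L x) = c (e.symm y).1
    · apply Matrix.det_zero_of_row_eq (i := e.symm x) (j := e.symm y)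
        (fun h => hxy (e.symm.injective h))
      funext z
      simp only [Matrix.of_apply, Equiv.apply_symm_apply]
      rw [← h1, ← h2, ← hL]
    · apply Matrix.det_eq_zero_of_row_eq_zero (e.symm y)
      intro z
      simp only [Matrix.of_apply, Equiv.apply_symm_apply, id]
      rw [if_neg]
      rintro ⟨h3, h4⟩
      apply h2
      rw [← h3, ← h4, hL]
  · apply Matrix.det_eq_zero_of_row_eq_zero (e.symm x)
    intro z
    simp only [Matrix.of_apply, Equiv.apply_symm_apply, id]
    rw [if_neg]
    rintro ⟨h3, h4⟩
    apply h1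
    rw [← h3, ← h4]

/-- contraction with a form on the last slots -/
def Phi {n : ℕ} (k N : ℕ) (D : (Fin N → Fin n) → ℂ) :
    ((Fin (k + N) → Fin n) → ℂ) →ₗ[ℂ] ((Fin k → Fin n) → ℂ) where
  toFun w := fun J => ∑ L : Fin N → Fin n, D L * w (Fin.append J L)
  map_add' w w' := by
    funext J
    simp only [Pi.add_apply, mul_add, Finset.sum_add_distrib]
  map_smul' a w := by
    funext J
    simp only [Pi.smul_apply, smul_eq_mul, RingHom.id_apply, Finset.mul_sum]
    apply Finset.sum_congr rfl
    intro L _
    ring

theorem Phi_genO {n r k N : ℕ} (c : Fin n → Fin r) (S : Finset (Fin r))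
    (e : {b : Fin n // c b ∈ S} ≃ Fin N) (σ : Fin (k + N) → Fin (k + N)) (f : Fin (k + N) → Fin r)
    (hσ : Mat (k + N) σ) :
    Phi k N (fun L => dt c S id e L) (genO ℂ c σ f) ∈
      Submodule.span ℂ {t | ∃ σ f g, OkS c σ S g ∧ t = genS ℂ c σ f S g} := by
  classical
  obtain ⟨hinv, hfix⟩ := hσ
  by_cases hA : ∃ x y : Fin N, σ (Fin.natAdd k x) = Fin.natAdd k y
  · -- two of the last slots are paired
    obtain ⟨x, y, hxy⟩ := hA
    have hne : x ≠ y := by
      rintro rfl
      exact hfix _ hxy
    have h0 : Phi k N (fun L => dt c S id e L) (genO ℂ c σ f) = 0 := by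
      funext J
      change ∑ L : Fin N → Fin n, dt c S id e L * genO ℂ c σ f (Fin.append J L) = 0
      apply Finset.sum_eq_zero
      intro L _
      rw [genO_eq c σ hinv]
      split_ifs with h
      · have h2 := h.2 (Fin.natAdd k x)
        rw [hxy, Fin.append_right, Fin.append_right] at h2
        rw [dt_zero c S e L x y hne h2, zero_mul]
      · rw [mul_zero]
    rw [h0]
    exact Submodule.zero_mem _
  · push Not at hA
    have hB : ∀ x : Fin N, ∃ i : Fin k, σ (Fin.natAdd k x) = Fin.castAdd N i := by
      intro x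
      have h := hA x
      revert h
      refine Fin.addCases (fun i => ?_) (fun y => ?_) (σ (Fin.natAdd k x))
      · intro _
        exact ⟨i, rfl⟩
      · intro h
        exact absurd rfl (h y)
    choose h hh using hB
    have hinj : Function.Injective h := by
      intro x y hxy
      have h1 : σ (Fin.natAdd k x) = σ (Fin.natAdd k y) := by rw [hh, hh, hxy]
      have h2 := congrArg σ h1
      rw [hinv, hinv] at h2
      exact Fin.natAdd_injective _ _ h2
    -- the involution on the first slots
    set τ : Fin k → Fin k := fun j =>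
      Fin.addCases (motive := fun _ => Fin k) (fun i => i) (fun _ => j) (σ (Fin.castAdd N j)) with hτ
    have hτ1 : ∀ i j : Fin k, σ (Fin.castAdd N j) = Fin.castAdd N i → τ j = i := by
      intro i j hij
      simp only [hτ, hij, Fin.addCases_left]
    have hτ2 : ∀ (j : Fin k) (x : Fin N), σ (Fin.castAdd N j) = Fin.natAdd k x → τ j = j ∧ j = h x := by
      intro j x hjx
      refine ⟨by simp only [hτ, hjx, Fin.addCases_right], ?_⟩
      have h1 := congrArg σ hjx
      rw [hinv, hh] at h1
      exact Fin.castAdd_injective _ _ h1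
    have hcase : ∀ j : Fin k, (∃ i, σ (Fin.castAdd N j) = Fin.castAdd N i) ∨
        ∃ x, σ (Fin.castAdd N j) = Fin.natAdd k x := by
      intro j
      refine Fin.addCases (fun i => ?_) (fun y => ?_) (σ (Fin.castAdd N j))
      · exact Or.inl ⟨i, rfl⟩
      · exact Or.inr ⟨y, rfl⟩
    have hok : OkS c τ S (fun b => h (e b)) := by
      refine ⟨?_, ?_, ?_⟩
      · intro j
        rcases hcase j with ⟨i, hi⟩ | ⟨x, hx⟩
        · rw [hτ1 i j hi]
          apply hτ1
          rw [← hi, hinv]
        · rw [(hτ2 j x hx).1, (hτ2 j x hx).1]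
      · intro b b' hbb
        exact e.injective (hinj hbb)
      · intro j
        constructor
        · intro hj
          rcases hcase j with ⟨i, hi⟩ | ⟨x, hx⟩
          · rw [hτ1 i j hi] at hj
            rw [hj] at hi
            exact absurd hi (hfix _)
          · exact ⟨e.symm x, by simp only [Equiv.apply_symm_apply]; exact (hτ2 j x hx).2.symm⟩
        · rintro ⟨b, hb⟩
          have h1 := hh (e b)
          have h2 := congrArg σ h1
          rw [hinv] at h2
          simp only at hb
          rw [hb] at h2
          exact (hτ2 j (e b) h2.symm).1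
    by_cases hf : ∀ x : Fin N, f (Fin.natAdd k x) = f (Fin.castAdd N (h x))
    · -- consistent colours
      apply Submodule.subset_span
      refine ⟨τ, fun j => f (Fin.castAdd N j), fun b => h (e b), hok, ?_⟩
      funext J
      change ∑ L : Fin N → Fin n, dt c S id e L * genO ℂ c σ f (Fin.append J L)
        = genO ℂ c τ (fun j => f (Fin.castAdd N j)) J * dt c S id (fun b => h (e b)) J
      rw [Finset.sum_eq_single (fun x => J (h x))]
      · rw [genO_eq c σ hinv, genO_eq c τ hok.1]
        have hiff : ((∀ j, c (Fin.append J (fun x => J (h x)) j) = f j) ∧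
            ∀ j, Fin.append J (fun x => J (h x)) j = Fin.append J (fun x => J (h x)) (σ j)) ↔
            ((∀ j, c (J j) = f (Fin.castAdd N j)) ∧ ∀ j, J j = J (τ j)) := by
          constructor
          · rintro ⟨h1, h2⟩
            refine ⟨fun j => ?_, fun j => ?_⟩
            · have := h1 (Fin.castAdd N j)
              rwa [Fin.append_left] at this
            · rcases hcase j with ⟨i, hi⟩ | ⟨x, hx⟩
              · have := h2 (Fin.castAdd N j)
                rw [hi, Fin.append_left, Fin.append_left] at this
                rw [hτ1 i j hi]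
                exact this
              · rw [(hτ2 j x hx).1]
          · rintro ⟨h1, h2⟩
            refine ⟨fun j => ?_, fun j => ?_⟩
            · refine Fin.addCases (fun i => ?_) (fun x => ?_) j
              · rw [Fin.append_left]; exact h1 i
              · rw [Fin.append_right, hf x]; exact h1 (h x)
            · refine Fin.addCases (fun i => ?_) (fun x => ?_) j
              · rw [Fin.append_left]
                rcases hcase i with ⟨i', hi⟩ | ⟨x, hx⟩
                · rw [hi, Fin.append_left]
                  have := h2 i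
                  rwa [hτ1 i' i hi] at this
                · rw [hx, Fin.append_right]
                  exact congrArg J (hτ2 i x hx).2
              · rw [Fin.append_right, hh, Fin.append_left]
        have hd : (dt c S id e (fun x => J (h x)) : ℂ) = dt c S id (fun b => h (e b)) J := rfl
        rw [hd, mul_comm]
        by_cases hP : (∀ j, c (J j) = f (Fin.castAdd N j)) ∧ ∀ j, J j = J (τ j)
        · rw [if_pos hP, if_pos (hiff.mpr hP)]
        · rw [if_neg hP, if_neg (fun h => hP (hiff.mp h))]
      · intro L _ hL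
        rw [genO_eq c σ hinv]
        split_ifs with hP
        · exfalso
          apply hL
          funext x
          have := hP.2 (Fin.natAdd k x)
          rwa [hh, Fin.append_right, Fin.append_left] at this
        · rw [mul_zero]
      · intro hn
        exact absurd (Finset.mem_univ _) hn
    · -- inconsistent colours
      push Not at hf
      obtain ⟨x, hx⟩ := hf
      have h0 : Phi k N (fun L => dt c S id e L) (genO ℂ c σ f) = 0 := by
        funext J
        change ∑ L : Fin N → Fin n, dt c S id e L * genO ℂ c σ f (Fin.append J L) = 0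
        apply Finset.sum_eq_zero
        intro L _
        rw [genO_eq c σ hinv]
        split_ifs with hP
        · exfalso
          apply hx
          have h1 := hP.2 (Fin.natAdd k x)
          rw [← hP.1 (Fin.natAdd k x), ← hP.1 (Fin.castAdd N (h x)), h1, hh]
        · rw [mul_zero]
      rw [h0]
      exact Submodule.zero_mem _

theorem eqv (honc : S_onc) (hdeq : S_deq) : S_eqv := by
  classical
  intro n r k c S u hu
  obtain ⟨N, ⟨e⟩⟩ : ∃ N : ℕ, Nonempty ({b : Fin n // c b ∈ S} ≃ Fin N) :=
    ⟨_, ⟨Fintype.equivFin _⟩⟩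
  set D : (Fin N → Fin n) → ℂ := fun L => dt c S id e L with hD
  set v : (Fin (k + N) → Fin n) → ℂ :=
    fun J => u (fun j => J (Fin.castAdd N j)) * D (fun j => J (Fin.natAdd k j)) with hv
  have hvinv : ∀ R : Matrix (Fin n) (Fin n) ℝ, Rᵀ * R = 1 → BD c R → pull (rC R) v = v := by
    intro R hR hB
    funext J
    rw [hv, pull_mul, hu R hR hB, hD, hdeq n r N c S e e.bijective R hR hB]
    simp only [Pi.smul_apply, smul_eq_mul]
    have h1 : ((chr c S R : ℝ) : ℂ) * ((chr c S R : ℝ) : ℂ) = 1 := by
      rw [← Complex.ofReal_mul, chr_sq c S R hR hB, Complex.ofReal_one]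
    linear_combination (u (fun j => J (Fin.castAdd N j)) *
      dt c S id e (fun j => J (Fin.natAdd k j))) * h1
  have hvs := honc n r (k + N) c v hvinv
  have hmap : Phi k N D v ∈
      Submodule.span ℂ {t | ∃ σ f g, OkS c σ S g ∧ t = genS ℂ c σ f S g} := by
    have h1 : Submodule.map (Phi k N D) (Submodule.span ℂ
        {g | ∃ σ f, Mat (k + N) σ ∧ g = genO ℂ c σ f}) ≤
        Submodule.span ℂ {t | ∃ σ f g, OkS c σ S g ∧ t = genS ℂ c σ f S g} := by
      rw [Submodule.map_span_le]
      rintro g ⟨σ, f, hσ, rfl⟩
      exact Phi_genO c S e σ f hσ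
    exact h1 (Submodule.mem_map_of_mem hvs)
  have hPhi : Phi k N D v = (∑ L : Fin N → Fin n, D L * D L) • u := by
    funext J
    change ∑ L : Fin N → Fin n, D L * v (Fin.append J L) = _
    rw [Pi.smul_apply, smul_eq_mul, Finset.sum_mul]
    apply Finset.sum_congr rfl
    intro L _
    simp only [hv, Fin.append_left, Fin.append_right]
    ring
  have hs : (∑ L : Fin N → Fin n, D L * D L) ≠ 0 := by
    have h1 : (∑ L : Fin N → Fin n, D L * D L)
        = ((∑ L : Fin N → Fin n, (dt c S id e L : ℤ) * (dt c S id e L : ℤ) : ℤ) : ℂ) := by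
      rw [Int.cast_sum]
      apply Finset.sum_congr rfl
      intro L _
      rw [hD]
      simp only
      rw [dt_cast, Int.cast_mul]
    rw [h1, Int.cast_ne_zero]
    have h2 : (0 : ℤ) < ∑ L : Fin N → Fin n, (dt c S id e L : ℤ) * (dt c S id e L : ℤ) := by
      apply Finset.sum_pos' (fun L _ => mul_self_nonneg _)
      exact ⟨fun j => (e.symm j).1, Finset.mem_univ _, by rw [dt_one]; norm_num⟩
    exact h2.ne'
  have hu2 : u = (∑ L : Fin N → Fin n, D L * D L)⁻¹ • Phi k N D v := by
    rw [hPhi, smul_smul, inv_mul_cancel₀ hs, one_smul]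
  rw [hu2]
  exact Submodule.smul_mem _ _ hmap

end

end Pool.Agent.W237.FF
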